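import Mathlib
import Pool.Agent.Work.MP_719c9c_nt.Check

namespace Pool.Agent.Results.MP_719c9c_nt.NoMirror1748

open Pool.Agent.Work.MP_719c9c_nt

/-- The lattice points enclosed by the circle with center `c` and radius `ρ`, i.e. lying in the
open disk. -/
def enclosed (c : ℝ × ℝ) (ρ : ℝ) : Set (ℤ × ℤ) :=
  {p | ((p.1 : ℝ) - c.1) ^ 2 + ((p.2 : ℝ) - c.2) ^ 2 < ρ ^ 2}

/-- `L(C)`: the lattice points on the circle with center `c` and radius `ρ`. -/
def onCircle (c : ℝ × ℝ) (ρ : ℝ) : Set (ℤ × ℤ) :=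
  {p | ((p.1 : ℝ) - c.1) ^ 2 + ((p.2 : ℝ) - c.2) ^ 2 = ρ ^ 2}

/-- The circle with center `c` and radius `ρ > 0` is `n`-enclosing. -/
def IsEnclosing (n : ℕ) (c : ℝ × ℝ) (ρ : ℝ) : Prop :=
  0 < ρ ∧ (enclosed c ρ).encard = n

/-- The circle with center `c` and radius `ρ` is an `n`-enclosing circle of maximal radius. -/
def IsMCCircle (n : ℕ) (c : ℝ × ℝ) (ρ : ℝ) : Prop :=
  IsEnclosing n c ρ ∧ ∀ (c' : ℝ × ℝ) (ρ' : ℝ), IsEnclosing n c' ρ' → ρ' ≤ ρ

/-- `n` is MC: the radii of `n`-enclosing circles attain a maximum. -/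
def IsMC (n : ℕ) : Prop := ∃ (c : ℝ × ℝ) (ρ : ℝ), IsMCCircle n c ρ

/-- `n` is a strong MC number. -/
def IsStrong (n : ℕ) : Prop := IsMC n ∧ ¬ IsMC (n + 1)

/-- The lattice-invariant reflections, restricted to the lattice: the axes are the lines
`x = k/2`, `y = k/2`, `y = x + k` and `y = -x + k` with `k` an integer. -/
def IsLatticeReflection (σ : ℤ × ℤ → ℤ × ℤ) : Prop :=
  ∃ k : ℤ, (σ = fun p => (k - p.1, p.2)) ∨ (σ = fun p => (p.1, k - p.2)) ∨
    (σ = fun p => (p.2 - k, p.1 + k)) ∨ (σ = fun p => (k - p.2, k - p.1))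

/-- `L` has a mirror symmetry. -/
def HasMirrorSymmetry (L : Set (ℤ × ℤ)) : Prop :=
  ∃ σ : ℤ × ℤ → ℤ × ℤ, IsLatticeReflection σ ∧ σ '' L = L

/-! ### The special circle -/

/-- The special radius. -/
noncomputable def R : ℝ := Real.sqrt 378250 / 26

/-- The special center. -/
noncomputable def cs : ℝ × ℝ := (9 / 26, 5 / 26)

theorem R_sq : R ^ 2 = 378250 / 676 := by
  unfold R
  rw [div_pow, Real.sq_sqrt (by norm_num)]
  norm_num

theorem R_pos : 0 < R := by unfold R; positivity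

/-- The integer form of the circle equation. -/
def q (p : ℤ × ℤ) : ℤ := 13 * (p.1 * p.1 + p.2 * p.2) - 9 * p.1 - 5 * p.2 - 7272

theorem q_real (p : ℤ × ℤ) : ((p.1 : ℝ) - 9 / 26) ^ 2 + ((p.2 : ℝ) - 5 / 26) ^ 2 - 378250 / 676
    = (q p : ℝ) / 13 := by
  unfold q; push_cast; ring

theorem allPts_nodup : allPts.Nodup := by
  unfold allPts
  refine List.Nodup.map ?_ (List.Nodup.product List.nodup_range List.nodup_range)
  intro p p' h
  simp only [Prod.mk.injEq] at h
  ext <;> omega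

theorem mem_allPts {p : ℤ × ℤ} : p ∈ allPts ↔ (-25 ≤ p.1 ∧ p.1 ≤ 25) ∧ (-25 ≤ p.2 ∧ p.2 ≤ 25) := by
  unfold allPts
  rw [List.mem_map]
  constructor
  · rintro ⟨u, hu, rfl⟩
    rw [List.mem_product, List.mem_range, List.mem_range] at hu
    omega
  · rintro ⟨⟨h1, h2⟩, h3, h4⟩
    refine ⟨((p.1 + 25).toNat, (p.2 + 25).toNat), ?_, ?_⟩
    · rw [List.mem_product, List.mem_range, List.mem_range]
      omega
    · ext <;> simp only <;> omega

theorem q_small {p : ℤ × ℤ} (h : q p ≤ 0) : p ∈ allPts := by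
  rw [mem_allPts]
  unfold q at h
  refine ⟨⟨?_, ?_⟩, ⟨?_, ?_⟩⟩ <;> nlinarith [sq_nonneg (26 * p.1 - 9), sq_nonneg (26 * p.2 - 5)]

/-- The six lattice points on the circle. -/
def six : List (ℤ × ℤ) := [(-23, 4), (-21, -10), (-14, 19), (5, -23), (23, 7), (24, 0)]

set_option maxRecDepth 100000 in
theorem zero_list : allPts.filter (fun p => decide (q p = 0)) = six := by decide +kernel

set_option maxRecDepth 100000 in
theorem neg_length : (allPts.filter (fun p => decide (q p < 0))).length = 1748 := by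
  decide +kernel

theorem q_zero_iff {p : ℤ × ℤ} : q p = 0 ↔ p ∈ six := by
  rw [← zero_list, List.mem_filter, decide_eq_true_eq]
  exact ⟨fun h => ⟨q_small h.le, h⟩, fun h => h.2⟩

theorem enclosed_cs : enclosed cs R = {p | q p < 0} := by
  ext p
  have h := q_real p
  simp only [enclosed, cs, Set.mem_ofPred_eq, R_sq]
  constructor
  · intro h1
    have : (q p : ℝ) < 0 := by linarith
    exact_mod_cast this
  · intro h1
    have : (q p : ℝ) < 0 := by exact_mod_cast h1
    linarith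

theorem onCircle_cs : onCircle cs R = {p | p ∈ six} := by
  ext p
  have h := q_real p
  simp only [onCircle, cs, Set.mem_ofPred_eq, R_sq, ← q_zero_iff]
  constructor
  · intro h1
    have : (q p : ℝ) = 0 := by linarith
    exact_mod_cast this
  · intro h1
    have : (q p : ℝ) = 0 := by exact_mod_cast h1
    linarith

theorem neg_set_eq : {p : ℤ × ℤ | q p < 0} =
    ↑((allPts.filter (fun p => decide (q p < 0))).toFinset) := by
  ext p
  simp only [Set.mem_ofPred_eq, List.coe_toFinset, List.mem_filter, decide_eq_true_eq]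
  exact ⟨fun h => ⟨q_small h.le, h⟩, fun h => h.2⟩

theorem encard_neg : {p : ℤ × ℤ | q p < 0}.encard = 1748 := by
  rw [neg_set_eq, Set.encard_coe_eq_coe_finsetCard,
    List.toFinset_card_of_nodup (allPts_nodup.filter _), neg_length]
  rfl

theorem encard_cs : (enclosed cs R).encard = 1748 := by
  rw [enclosed_cs, encard_neg]

theorem encard_cs_big {ρ : ℝ} (hρ : R < ρ) : 1750 ≤ (enclosed cs ρ).encard := by
  have hsub : {p : ℤ × ℤ | q p < 0} ∪ {p | p ∈ six} ⊆ enclosed cs ρ := by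
    intro p hp
    have h := q_real p
    have hR : 378250 / 676 < ρ ^ 2 := by
      rw [← R_sq]; exact pow_lt_pow_left₀ hρ R_pos.le (by norm_num)
    have hq : q p ≤ 0 := by
      rcases hp with hp | hp
      · exact le_of_lt hp
      · exact le_of_eq (q_zero_iff.2 hp)
    have : (q p : ℝ) ≤ 0 := by exact_mod_cast hq
    simp only [enclosed, cs, Set.mem_ofPred_eq]
    linarith
  refine le_trans ?_ (Set.encard_le_encard hsub)
  rw [Set.encard_union_eq, encard_neg]
  · have e : {p : ℤ × ℤ | p ∈ six} = ↑(six.toFinset) := by ext p; simp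
    rw [e, Set.encard_coe_eq_coe_finsetCard]
    have : six.toFinset.card = 6 := by decide
    rw [this]
    norm_num
  · rw [Set.disjoint_left]
    intro p h1 h2
    have := q_zero_iff.2 h2
    simp only [Set.mem_ofPred_eq] at h1
    omega

/-! ### All other centers -/

open Classical in
theorem count_le_encard (x y : ℝ) :
    ((allPts.countP (fun p => decide (In x y p)) : ℕ) : ℕ∞) ≤ (enclosed (x, y) R).encard := by
  have e : allPts.countP (fun p => decide (In x y p))
      = ((allPts.filter (fun p => decide (In x y p))).toFinset).card := by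
    rw [List.toFinset_card_of_nodup (allPts_nodup.filter _), List.countP_eq_length_filter]
  rw [e, ← Set.encard_coe_eq_coe_finsetCard]
  apply Set.encard_le_encard
  intro p hp
  simp only [List.coe_toFinset, List.mem_filter, decide_eq_true_eq, Set.mem_ofPred_eq] at hp
  simp only [enclosed, Set.mem_ofPred_eq, R_sq]
  exact hp.2

set_option maxRecDepth 100000 in
theorem insideQ_length : (allPts.filter (insideTest 41 21 7)).length = 1748 := by decide +kernel

theorem insideQ_six : ∀ p ∈ six, insideTest 41 21 7 p = false := by decide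

theorem in_iff (x y : ℝ) (p : ℤ × ℤ) (hp : q p = 0) : In x y p ↔
    (x - 9 / 26) ^ 2 + (y - 5 / 26) ^ 2 <
      2 * (((p.1 : ℝ) - 9 / 26) * (x - 9 / 26) + ((p.2 : ℝ) - 5 / 26) * (y - 5 / 26)) := by
  have h := q_real p
  rw [hp] at h
  unfold In
  constructor
  · intro h1; nlinarith [h, h1]
  · intro h1; nlinarith [h, h1]

theorem near_cs {x y : ℝ} (h1 : 41 ≤ 128 * x) (h2 : 128 * x ≤ 48) (h3 : 21 ≤ 128 * y)
    (h4 : 128 * y ≤ 28) (hne : ¬ (x = 9 / 26 ∧ y = 5 / 26)) :
    1750 ≤ (enclosed (x, y) R).encard := by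
  obtain ⟨u, hu⟩ : ∃ u, u = x - 9 / 26 := ⟨_, rfl⟩
  obtain ⟨v, hv⟩ : ∃ v, v = y - 5 / 26 := ⟨_, rfl⟩
  have hu1 : -0.03 ≤ u := by rw [hu]; linarith
  have hu2 : u ≤ 0.03 := by rw [hu]; linarith
  have hv1 : -0.03 ≤ v := by rw [hv]; linarith
  have hv2 : v ≤ 0.03 := by rw [hv]; linarith
  have huv : 0 < |u| + |v| := by
    by_contra hcon
    push Not at hcon
    have a1 := abs_nonneg u
    have a2 := abs_nonneg v
    have hu0 : u = 0 := abs_eq_zero.1 (by linarith)
    have hv0 : v = 0 := abs_eq_zero.1 (by linarith)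
    exact hne ⟨by linarith, by linarith⟩
  have hsq : u ^ 2 + v ^ 2 ≤ 0.03 * (|u| + |v|) := by
    have b1 : |u| ≤ 0.03 := abs_le.2 ⟨hu1, hu2⟩
    have b2 : |v| ≤ 0.03 := abs_le.2 ⟨hv1, hv2⟩
    rw [← sq_abs u, ← sq_abs v]
    nlinarith [abs_nonneg u, abs_nonneg v]
  have key : ∀ p : ℤ × ℤ, q p = 0 → (In x y p ↔
      u ^ 2 + v ^ 2 < 2 * (((p.1 : ℝ) - 9 / 26) * u + ((p.2 : ℝ) - 5 / 26) * v)) := by
    intro p hp
    rw [in_iff x y p hp, hu, hv]
  -- one point of the first triple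
  have t1 : ∃ p ∈ six, In x y p ∧ (p = (23, 7) ∨ p = (-23, 4) ∨ p = (5, -23)) := by
    by_contra hcon
    push Not at hcon
    have g1 : ¬ In x y (23, 7) := fun h => (hcon (23, 7) (by decide) h).1 rfl
    have g2 : ¬ In x y (-23, 4) := fun h => (hcon (-23, 4) (by decide) h).2.1 rfl
    have g3 : ¬ In x y (5, -23) := fun h => (hcon (5, -23) (by decide) h).2.2 rfl
    rw [key _ (by decide), not_lt] at g1 g2 g3
    push_cast at g1 g2 g3
    rcases abs_cases u with ⟨e1, e2⟩ | ⟨e1, e2⟩ <;> rcases abs_cases v with ⟨e3, e4⟩ | ⟨e3, e4⟩ <;>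
      rw [e1, e3] at hsq huv <;> nlinarith
  have t2 : ∃ p ∈ six, In x y p ∧ (p = (-14, 19) ∨ p = (-21, -10) ∨ p = (24, 0)) := by
    by_contra hcon
    push Not at hcon
    have g1 : ¬ In x y (-14, 19) := fun h => (hcon (-14, 19) (by decide) h).1 rfl
    have g2 : ¬ In x y (-21, -10) := fun h => (hcon (-21, -10) (by decide) h).2.1 rfl
    have g3 : ¬ In x y (24, 0) := fun h => (hcon (24, 0) (by decide) h).2.2 rfl
    rw [key _ (by decide), not_lt] at g1 g2 g3
    push_cast at g1 g2 g3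
    rcases abs_cases u with ⟨e1, e2⟩ | ⟨e1, e2⟩ <;> rcases abs_cases v with ⟨e3, e4⟩ | ⟨e3, e4⟩ <;>
      rw [e1, e3] at hsq huv <;> nlinarith
  obtain ⟨p1, m1, i1, d1⟩ := t1
  obtain ⟨p2, m2, i2, d2⟩ := t2
  have hne12 : p1 ≠ p2 := by
    rcases d1 with rfl | rfl | rfl <;> rcases d2 with rfl | rfl | rfl <;> decide
  set F : Finset (ℤ × ℤ) := (allPts.filter (insideTest 41 21 7)).toFinset with hF
  have hFcard : F.card = 1748 := by
    rw [hF, List.toFinset_card_of_nodup (allPts_nodup.filter _), insideQ_length]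
  have n1 : p1 ∉ F := by
    intro h
    rw [hF, List.mem_toFinset, List.mem_filter, insideQ_six p1 m1] at h
    exact Bool.false_ne_true h.2
  have n2 : p2 ∉ F := by
    intro h
    rw [hF, List.mem_toFinset, List.mem_filter, insideQ_six p2 m2] at h
    exact Bool.false_ne_true h.2
  have hcard : (insert p1 (insert p2 F)).card = 1750 := by
    rw [Finset.card_insert_of_notMem, Finset.card_insert_of_notMem n2, hFcard]
    rw [Finset.mem_insert, not_or]
    exact ⟨hne12, n1⟩
  have hsub : (↑(insert p1 (insert p2 F)) : Set (ℤ × ℤ)) ⊆ enclosed (x, y) R := by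
    intro p hp
    simp only [enclosed, Set.mem_ofPred_eq, R_sq]
    rw [Finset.mem_coe, Finset.mem_insert, Finset.mem_insert] at hp
    rcases hp with rfl | rfl | hp
    · exact i1
    · exact i2
    · rw [hF, List.mem_toFinset, List.mem_filter] at hp
      exact insideTest_spec hp.2 (by exact_mod_cast h1) (by push_cast; linarith)
        (by exact_mod_cast h3) (by push_cast; linarith)
  have := Set.encard_le_encard hsub
  rw [Set.encard_coe_eq_coe_finsetCard, hcard] at this
  exact_mod_cast this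

theorem main_lower {x y : ℝ} (hy : 0 ≤ y) (hyx : y ≤ x) (hx : x ≤ 1 / 2)
    (hne : ¬ (x = 9 / 26 ∧ y = 5 / 26)) : 1750 ≤ (enclosed (x, y) R).encard := by
  by_cases hQ : 41 ≤ 128 * x ∧ 128 * x ≤ 48 ∧ 21 ≤ 128 * y ∧ 128 * y ≤ 28
  · exact near_cs hQ.1 hQ.2.1 hQ.2.2.1 hQ.2.2.2 hne
  · refine le_trans ?_ (count_le_encard x y)
    have := chk_spec 6 0 0 allPts 0 chk_all x y (by push_cast; linarith) (by push_cast; linarith)
      (by push_cast; linarith) (by push_cast; linarith) hyx hQ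
    rw [zero_add] at this
    exact_mod_cast this

/-! ### Reduction to the fundamental triangle -/

theorem reduce (c : ℝ × ℝ) : ∃ x y : ℝ, 0 ≤ y ∧ y ≤ x ∧ x ≤ 1 / 2 ∧
    ∀ ρ : ℝ, (enclosed c ρ).encard = (enclosed (x, y) ρ).encard := by
  have trans : ∀ (a b : ℝ) (m n : ℤ) (ρ : ℝ),
      (enclosed (a, b) ρ).encard = (enclosed (a - m, b - n) ρ).encard := by
    intro a b m n ρ
    have hb : Function.Bijective (fun p : ℤ × ℤ => (p.1 - m, p.2 - n)) :=
      ⟨fun p p' h => by
        simp only [Prod.mk.injEq] at h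
        ext <;> omega, fun p => ⟨(p.1 + m, p.2 + n), by simp⟩⟩
    rw [← Set.encard_preimage_of_bijective hb (enclosed (a - m, b - n) ρ)]
    congr 1
    ext p
    simp only [enclosed, Set.mem_ofPred_eq, Set.mem_preimage]
    push_cast
    ring_nf
  have negx : ∀ (a b ρ : ℝ), (enclosed (a, b) ρ).encard = (enclosed (-a, b) ρ).encard := by
    intro a b ρ
    have hb : Function.Bijective (fun p : ℤ × ℤ => (-p.1, p.2)) :=
      ⟨fun p p' h => by
        simp only [Prod.mk.injEq] at h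
        ext <;> omega, fun p => ⟨(-p.1, p.2), by simp⟩⟩
    rw [← Set.encard_preimage_of_bijective hb (enclosed (-a, b) ρ)]
    congr 1
    ext p
    simp only [enclosed, Set.mem_ofPred_eq, Set.mem_preimage]
    push_cast
    ring_nf
  have swap : ∀ (a b ρ : ℝ), (enclosed (a, b) ρ).encard = (enclosed (b, a) ρ).encard := by
    intro a b ρ
    have hb : Function.Bijective (fun p : ℤ × ℤ => (p.2, p.1)) :=
      ⟨fun p p' h => by
        simp only [Prod.mk.injEq] at h
        ext <;> omega, fun p => ⟨(p.2, p.1), by simp⟩⟩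
    rw [← Set.encard_preimage_of_bijective hb (enclosed (b, a) ρ)]
    congr 1
    ext p
    simp only [enclosed, Set.mem_ofPred_eq, Set.mem_preimage]
    rw [add_comm]
  have absx : ∀ (a b ρ : ℝ), (enclosed (a, b) ρ).encard = (enclosed (|a|, b) ρ).encard := by
    intro a b ρ
    rcases abs_choice a with h | h
    · rw [h]
    · rw [h]; exact negx a b ρ
  obtain ⟨a, b⟩ := c
  obtain ⟨a', ha'⟩ : ∃ a', a' = |a - round a| := ⟨_, rfl⟩
  obtain ⟨b', hb'⟩ : ∃ b', b' = |b - round b| := ⟨_, rfl⟩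
  have ha1 : a' ≤ 1 / 2 := by rw [ha']; exact abs_sub_round a
  have hb1 : b' ≤ 1 / 2 := by rw [hb']; exact abs_sub_round b
  have ha0 : 0 ≤ a' := by rw [ha']; exact abs_nonneg _
  have hb0 : 0 ≤ b' := by rw [hb']; exact abs_nonneg _
  have e : ∀ ρ, (enclosed (a, b) ρ).encard = (enclosed (a', b') ρ).encard := by
    intro ρ
    rw [trans a b (round a) (round b) ρ, absx, swap, absx, swap, ha', hb']
  rcases le_total b' a' with h | h
  · exact ⟨a', b', hb0, h, ha1, e⟩
  · exact ⟨b', a', ha0, h, hb1, fun ρ => (e ρ).trans (swap _ _ _)⟩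

theorem enclosed_mono (c : ℝ × ℝ) {ρ ρ' : ℝ} (h0 : 0 ≤ ρ) (h : ρ ≤ ρ') :
    enclosed c ρ ⊆ enclosed c ρ' := by
  intro p hp
  simp only [enclosed, Set.mem_ofPred_eq] at hp ⊢
  exact lt_of_lt_of_le hp (pow_le_pow_left₀ h0 h 2)

/-- Every circle of radius larger than `R` encloses at least 1750 lattice points. -/
theorem big_radius (c : ℝ × ℝ) {ρ : ℝ} (hρ : R < ρ) : 1750 ≤ (enclosed c ρ).encard := by
  obtain ⟨x, y, h1, h2, h3, h4⟩ := reduce c
  rw [h4]
  by_cases hs : x = 9 / 26 ∧ y = 5 / 26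
  · rw [hs.1, hs.2]
    exact encard_cs_big hρ
  · exact (main_lower h1 h2 h3 hs).trans
      (Set.encard_le_encard (enclosed_mono _ R_pos.le hρ.le))

/-- A circle of radius `R` does not enclose exactly 1749 lattice points. -/
theorem radius_R (c : ℝ × ℝ) : (enclosed c R).encard ≠ 1749 := by
  obtain ⟨x, y, h1, h2, h3, h4⟩ := reduce c
  rw [h4]
  by_cases hs : x = 9 / 26 ∧ y = 5 / 26
  · rw [hs.1, hs.2]
    have := encard_cs
    unfold cs at this
    rw [this]
    norm_num
  · intro h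
    have := main_lower h1 h2 h3 hs
    rw [h] at this
    norm_num at this

theorem mc_circle : IsMCCircle 1748 cs R := by
  refine ⟨⟨R_pos, encard_cs⟩, ?_⟩
  intro c ρ h
  by_contra hcon
  push Not at hcon
  have h1 := big_radius c hcon
  rw [h.2] at h1
  norm_num at h1

/-! ### `1749` is not MC -/

theorem approx {ε : ℝ} (h0 : 0 < ε) (h1 : ε ≤ 1 / 20000) {ρ : ℝ}
    (hρ : ρ ^ 2 = (378250 - 2 * ε * 92640 + ε ^ 2 * 378250) / 676) :
    (enclosed (9 / 26 + ε * 121 / 26, 5 / 26 - ε * 603 / 26) ρ).encard = 1749 := by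
  have e : enclosed (9 / 26 + ε * 121 / 26, 5 / 26 - ε * 603 / 26) ρ
      = insert ((5 : ℤ), (-23 : ℤ)) {p : ℤ × ℤ | q p < 0} := by
    ext p
    have hq := q_real p
    rw [Set.mem_insert_iff]
    simp only [enclosed, Set.mem_ofPred_eq, hρ]
    obtain ⟨X, hX⟩ : ∃ X, X = 26 * (p.1 : ℝ) - 9 := ⟨_, rfl⟩
    obtain ⟨Y, hY⟩ : ∃ Y, Y = 26 * (p.2 : ℝ) - 5 := ⟨_, rfl⟩
    have hXY : X ^ 2 + Y ^ 2 = 378250 + 52 * (q p : ℝ) := by
      rw [hX, hY]; unfold q; push_cast; ring
    have hin : (((p.1 : ℝ) - (9 / 26 + ε * 121 / 26)) ^ 2 +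
        ((p.2 : ℝ) - (5 / 26 - ε * 603 / 26)) ^ 2 <
        (378250 - 2 * ε * 92640 + ε ^ 2 * 378250) / 676) ↔
        26 * (q p : ℝ) < ε * (121 * X - 603 * Y - 92640) := by
      have e2 : ((p.1 : ℝ) - (9 / 26 + ε * 121 / 26)) ^ 2 +
        ((p.2 : ℝ) - (5 / 26 - ε * 603 / 26)) ^ 2 =
        (X ^ 2 + Y ^ 2 - 2 * ε * (121 * X - 603 * Y) + ε ^ 2 * 378250) / 676 := by
        rw [hX, hY]; ring
      rw [e2, hXY]
      constructor
      · intro h; linarith
      · intro h; linarith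
    rw [hin]
    rcases lt_trichotomy (q p) 0 with hlt | heq | hgt
    · have hle : (q p : ℝ) ≤ -1 := by exact_mod_cast Int.le_sub_one_of_lt hlt
      refine ⟨fun _ => Or.inr hlt, fun _ => ?_⟩
      nlinarith [sq_nonneg (X + 121), sq_nonneg (Y - 603), hXY,
        mul_nonneg h0.le (add_nonneg (sq_nonneg (X + 121)) (sq_nonneg (Y - 603)))]
    · constructor
      · intro h
        left
        rw [heq] at h
        have hmem := q_zero_iff.1 heq
        simp only [six, List.mem_cons, List.not_mem_nil, or_false] at hmem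
        rcases hmem with rfl | rfl | rfl | rfl | rfl | rfl
        · exfalso; push_cast at *; nlinarith
        · exfalso; push_cast at *; nlinarith
        · exfalso; push_cast at *; nlinarith
        · rfl
        · exfalso; push_cast at *; nlinarith
        · exfalso; push_cast at *; nlinarith
      · rintro (h | h)
        · subst h
          rw [heq, hX, hY]
          push_cast
          nlinarith
        · omega
    · have hge : (1 : ℝ) ≤ q p := by exact_mod_cast hgt
      constructor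
      · intro h
        exfalso
        nlinarith [sq_nonneg (X - 121), sq_nonneg (Y + 603), hXY,
          mul_nonneg h0.le (add_nonneg (sq_nonneg (X - 121)) (sq_nonneg (Y + 603)))]
      · rintro (h | h)
        · subst h
          exfalso
          revert hgt
          decide
        · omega
  rw [e, Set.encard_insert_of_notMem, encard_neg]
  · norm_num
  · simp only [Set.mem_ofPred_eq]
    decide

theorem not_mc : ¬ IsMC 1749 := by
  rintro ⟨c, ρ, ⟨h0, h1⟩, h2⟩
  have hlt : ρ < R := by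
    rcases lt_trichotomy ρ R with h | h | h
    · exact h
    · rw [h] at h1
      exact absurd h1 (radius_R c)
    · have h3 := big_radius c h
      rw [h1] at h3
      norm_num at h3
  have hsq : ρ ^ 2 < 378250 / 676 := by
    rw [← R_sq]; exact pow_lt_pow_left₀ hlt h0.le (by norm_num)
  obtain ⟨δ, hδ⟩ : ∃ δ, δ = 378250 / 676 - ρ ^ 2 := ⟨_, rfl⟩
  have hδ0 : 0 < δ := by rw [hδ]; linarith
  obtain ⟨ε, hε0, hε1, hε2⟩ : ∃ ε : ℝ, 0 < ε ∧ ε ≤ 1 / 20000 ∧ ε * 300 ≤ δ := by
    refine ⟨min (1 / 20000) (δ / 300), lt_min (by norm_num) (by positivity), min_le_left _ _, ?_⟩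
    have := min_le_right (1 / 20000 : ℝ) (δ / 300)
    linarith
  have hpos : 0 < (378250 - 2 * ε * 92640 + ε ^ 2 * 378250) / 676 := by
    have : 0 ≤ ε ^ 2 := sq_nonneg _
    have : 0 < 378250 - 2 * ε * 92640 + ε ^ 2 * 378250 := by nlinarith
    positivity
  obtain ⟨r, hr0, hr⟩ : ∃ r : ℝ, 0 < r ∧ r ^ 2 =
      (378250 - 2 * ε * 92640 + ε ^ 2 * 378250) / 676 :=
    ⟨Real.sqrt ((378250 - 2 * ε * 92640 + ε ^ 2 * 378250) / 676), Real.sqrt_pos.2 hpos,
      Real.sq_sqrt hpos.le⟩
  have h5 := h2 _ r ⟨hr0, approx hε0 hε1 hr⟩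
  have h6 : r ^ 2 ≤ ρ ^ 2 := pow_le_pow_left₀ hr0.le h5 2
  rw [hr] at h6
  have : 0 < ε ^ 2 := by positivity
  nlinarith

theorem no_mirror : ¬ HasMirrorSymmetry (onCircle cs R) := by
  rintro ⟨σ, ⟨k, hσ⟩, himg⟩
  rw [onCircle_cs] at himg
  have hmap : ∀ p ∈ six, σ p ∈ six := by
    intro p hp
    have : σ p ∈ σ '' {p | p ∈ six} := ⟨p, hp, rfl⟩
    rw [himg] at this
    exact this
  have a1 := hmap (24, 0) (by decide)
  have a2 := hmap (-23, 4) (by decide)
  have a3 := hmap (5, -23) (by decide)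
  have a4 := hmap (-14, 19) (by decide)
  rcases hσ with rfl | rfl | rfl | rfl <;>
    simp only [six, List.mem_cons, Prod.mk.injEq, List.not_mem_nil, or_false] at a1 a2 a3 a4 <;>
    omega

/-- `1748` is a strong MC number, the circle with center `(9/26, 5/26)` and radius
`√378250 / 26` is an MC-circle of `1748`, and the set of lattice points on it has no mirror
symmetry. -/
theorem result : IsStrong 1748 ∧ IsMCCircle 1748 (9 / 26, 5 / 26) (Real.sqrt 378250 / 26) ∧
    ¬ HasMirrorSymmetry (onCircle (9 / 26, 5 / 26) (Real.sqrt 378250 / 26)) :=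
  ⟨⟨⟨cs, R, mc_circle⟩, not_mc⟩, mc_circle, no_mirror⟩

end Pool.Agent.Results.MP_719c9c_nt.NoMirror1748
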